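import Pool.Agent.U565.HK.Main
import Pool.Agent.U565.HK.Stmt

/-! # MP_dc9318_an: no nontrivial Hilbert-Schmidt Hankel operators `H_{\bar f}` on bounded
Reinhardt domains of `ℂⁿ`, `n ≥ 2`. -/

set_option autoImplicit false

open scoped ComplexConjugate

namespace Pool.Agent.Results.MP_dc9318_an.NoHilbertSchmidt

open Pool.Agent.U565.HKS

/-- **Q1 of MP_dc9318_an (negated form).** Let `n ≥ 2`, let `Ω ⊆ ℂⁿ` be a bounded Reinhardt domain
(nonempty, open, connected, invariant under independent rotations of the coordinates) and let `f`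
be holomorphic on `Ω`. If the Hankel operator `H_{\bar f}` on the Bergman space `A²(Ω)` is
Hilbert-Schmidt, then `f` is constant and `H_{\bar f} = 0`. -/
theorem result {n : ℕ} (hn : 2 ≤ n) (Ω : Op n) (hc : IsDomain' Ω)
    (hb : Bornology.IsBounded (Ω : Set (Fin n → ℂ)))
    (hR : Pool.Agent.U565.HK.IsReinhardt (Ω : Set (Fin n → ℂ)))
    (f : (Fin n → ℂ) → ℂ) (hf : DifferentiableOn ℂ f (Ω : Set (Fin n → ℂ)))
    (hHS : IsHilbertSchmidtHankel Ω (fun z => conj (f z))) :
    (∃ c : ℂ, ∀ z ∈ Ω, f z = c) ∧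
      ∀ (g : A2 Ω) (h : InDom (fun z => conj (f z)) g), hankel (fun z => conj (f z)) g h = 0 :=
  Pool.Agent.U565.HK.main_aux hn Ω hc hb hR f hf hHS

end Pool.Agent.Results.MP_dc9318_an.NoHilbertSchmidt
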